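import Mathlib

set_option autoImplicit false

/-! Rational functions over an ordered field: constants and finite sets of constants. -/

namespace Pool.Agent.X321.DR

open Polynomial

variable {F K : Type} [Field F] [LinearOrder F] [IsStrictOrderedRing F] [Field K] [Algebra F K]

/-- `f` is `s - a` times an element `x² - (4 (s - a)² - 1) y²`, up to sign -/
def E {K : Type} [Field K] (s a f : K) : Prop :=
  ∃ x y : K, f = (s - a) * (x ^ 2 - (4 * (s - a) ^ 2 - 1) * y ^ 2) ∨
    f = -((s - a) * (x ^ 2 - (4 * (s - a) ^ 2 - 1) * y ^ 2))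

/-- infinite descent -/
lemma descent (a : F) (P Q : F[X]) (ε : F) :
    ∀ (n : ℕ) (W U V : F[X]), W.natDegree ≤ n → W ≠ 0 →
      P * Q * W ^ 2 = C ε * ((X - C a) * (U ^ 2 - (4 * (X - C a) ^ 2 - 1) * V ^ 2) * Q ^ 2) →
      ε ≠ 0 → (P * Q).eval a = 0 := by
  intro n
  induction n with
  | zero =>
    intro W U V hn hW h hε
    by_contra hc
    have h1 := congrArg (eval a) h
    simp only [eval_mul, eval_pow, eval_sub, eval_X, eval_C, sub_self, zero_mul, mul_zero] at h1
    have hW' : W = C (W.coeff 0) := eq_C_of_natDegree_le_zero hn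
    rw [hW', eval_C] at h1
    rw [eval_mul] at hc
    have h2 : W.coeff 0 ≠ 0 := by
      intro e
      rw [e, C_0] at hW'
      exact hW hW'
    exact (mul_ne_zero hc (pow_ne_zero 2 h2)) h1
  | succ n ih =>
    intro W U V hn hW h hε
    by_contra hc
    have hQ : Q.eval a ≠ 0 := by
      intro e
      apply hc
      rw [eval_mul, e, mul_zero]
    have h1 := congrArg (eval a) h
    rw [eval_mul, eval_pow] at h1
    have h2 : W.eval a = 0 := by
      by_contra hWa
      apply mul_ne_zero hc (pow_ne_zero 2 hWa)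
      rw [h1]
      simp
    obtain ⟨W1, hW1⟩ := dvd_iff_isRoot.2 h2
    have hW10 : W1 ≠ 0 := by
      rintro rfl
      rw [mul_zero] at hW1
      exact hW hW1
    have hX : (X - C a : F[X]) ≠ 0 := X_sub_C_ne_zero a
    have h3 : (X - C a) * (P * Q * W1 ^ 2) =
        C ε * ((U ^ 2 - (4 * (X - C a) ^ 2 - 1) * V ^ 2) * Q ^ 2) := by
      apply mul_left_cancel₀ hX
      rw [hW1] at h
      linear_combination h
    have h4 := congrArg (eval a) h3
    have h5 : ε * (((U.eval a) ^ 2 + (V.eval a) ^ 2) * (Q.eval a) ^ 2) = 0 := by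
      simp only [eval_mul, eval_pow, eval_sub, eval_X, eval_C, sub_self, zero_mul, eval_one,
        eval_ofNat] at h4
      rw [h4]
      ring
    have h6 : (U.eval a) ^ 2 + (V.eval a) ^ 2 = 0 := by
      rcases mul_eq_zero.1 h5 with h | h
      · exact absurd h hε
      · rcases mul_eq_zero.1 h with h | h
        · exact h
        · exact absurd h (pow_ne_zero 2 hQ)
    have h7 : U.eval a = 0 := by nlinarith [sq_nonneg (U.eval a), sq_nonneg (V.eval a)]
    have h8 : V.eval a = 0 := by nlinarith [sq_nonneg (U.eval a), sq_nonneg (V.eval a)]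
    obtain ⟨U1, hU1⟩ := dvd_iff_isRoot.2 h7
    obtain ⟨V1, hV1⟩ := dvd_iff_isRoot.2 h8
    apply hc
    refine ih W1 U1 V1 ?_ hW10 ?_ hε
    · have : W.natDegree = W1.natDegree + 1 := by
        rw [hW1, natDegree_mul hX hW10, natDegree_X_sub_C, add_comm]
      omega
    · apply mul_left_cancel₀ hX
      rw [h3, hU1, hV1]
      ring

section

variable {s : K} (hs : Transcendental F s)
  (hK : ∀ x : K, ∃ p q : F[X], q ≠ 0 ∧ x * aeval s q = aeval s p)

include hs in
omit [LinearOrder F] [IsStrictOrderedRing F] in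
lemma inj : Function.Injective (aeval (R := F) s) := transcendental_iff_injective.1 hs

include hK in
omit [LinearOrder F] [IsStrictOrderedRing F] in
/-- two elements have a common denominator -/
lemma common (x y : K) : ∃ p q r : F[X], r ≠ 0 ∧ x * aeval s r = aeval s p ∧
    y * aeval s r = aeval s q := by
  obtain ⟨p, r, hr, hx⟩ := hK x
  obtain ⟨q, t, ht, hy⟩ := hK y
  refine ⟨p * t, q * r, r * t, mul_ne_zero hr ht, ?_, ?_⟩
  · rw [map_mul, map_mul, ← hx]
    ring
  · rw [map_mul, map_mul, ← hy]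
    ring

include hs hK

/-- the constants with `E` are zeros or poles -/
lemma root_of_E (a : F) (f : K) (P Q : F[X])
    (hfPQ : f * aeval s Q = aeval s P) (h : E s (algebraMap F K a) f) :
    (P * Q).eval a = 0 := by
  obtain ⟨x, y, h⟩ := h
  obtain ⟨U, V, W, hW, hx, hy⟩ := common hK x y
  have key : ∀ ε : F, ε ≠ 0 → f = algebraMap F K ε * ((s - algebraMap F K a) *
      (x ^ 2 - (4 * (s - algebraMap F K a) ^ 2 - 1) * y ^ 2)) → (P * Q).eval a = 0 := by
    intro ε hε h
    refine descent a P Q ε W.natDegree W U V le_rfl hW ?_ hε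
    apply inj hs
    simp only [map_mul, map_pow, map_sub, aeval_X, aeval_C, map_one, map_ofNat]
    rw [← hfPQ, ← hx, ← hy]
    linear_combination (aeval s W) ^ 2 * (aeval s Q) ^ 2 * h
  rcases h with h | h
  · exact key 1 one_ne_zero (by rw [map_one, one_mul]; exact h)
  · exact key (-1) (neg_ne_zero.2 one_ne_zero) (by rw [map_neg, map_one, neg_one_mul]; exact h)

/-- finiteness -/
lemma finite_E (f : K) (hf : f ≠ 0) : {a : F | E s (algebraMap F K a) f}.Finite := by
  obtain ⟨P, Q, hQ, h⟩ := hK f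
  have hP : P ≠ 0 := by
    rintro rfl
    rw [map_zero] at h
    rcases mul_eq_zero.1 h with h | h
    · exact hf h
    · exact hQ (inj hs (by rw [h, map_zero]))
  refine Set.Finite.subset (P * Q).roots.toFinset.finite_toSet ?_
  intro a ha
  rw [Finset.mem_coe, Multiset.mem_toFinset, mem_roots (mul_ne_zero hP hQ)]
  exact root_of_E hs hK a f P Q h ha

/-- the Fermat cubic has only constant points -/
lemma const_of_cubic [LinearOrder K] [IsStrictOrderedRing K] (x y : K) (h : x ^ 3 + y ^ 3 = 1) :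
    ∃ c : F, x = algebraMap F K c := by
  obtain ⟨a, b, c, hc, hx, hy⟩ := common hK x y
  have hc' : aeval s c ≠ 0 := fun e => hc (inj hs (by rw [e, map_zero]))
  have h1 : a ^ 3 + b ^ 3 = c ^ 3 := by
    apply inj hs
    rw [map_add, map_pow, map_pow, map_pow, ← hx, ← hy]
    linear_combination (aeval s c) ^ 3 * h
  by_cases ha : a = 0
  · refine ⟨0, ?_⟩
    rw [ha, map_zero] at hx
    rw [map_zero]
    exact (mul_eq_zero.1 hx).resolve_right hc'
  by_cases hb : b = 0
  · refine ⟨1, ?_⟩
    rw [hb, map_zero] at hy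
    have hy0 : y = 0 := (mul_eq_zero.1 hy).resolve_right hc'
    rw [hy0, zero_pow three_ne_zero, add_zero] at h
    rw [map_one]
    have h2 : StrictMono (fun z : K => z ^ 3) := Odd.strictMono_pow (by decide)
    exact h2.injective (by simp [h])
  · have h3 : (((3 : ℕ) : F)) ≠ 0 := by norm_num
    obtain ⟨d, a', b', c', ⟨h4, h5, h6⟩, ha', hb', hc''⟩ :=
      fermatLastTheoremWith'_polynomial (k := F) (n := 3) le_rfl h3 a b c ha hb hc h1
    obtain ⟨α, hα, rfl⟩ := isUnit_iff.1 ha'
    obtain ⟨γ, hγ, rfl⟩ := isUnit_iff.1 hc''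
    refine ⟨α / γ, ?_⟩
    have hγ0 : γ ≠ 0 := hγ.ne_zero
    rw [h4, h6, map_mul, map_mul, aeval_C, aeval_C] at hx
    rw [map_div₀, eq_div_iff ((_root_.map_ne_zero _).2 hγ0)]
    have hd : aeval s d ≠ 0 := by
      intro e
      apply hc'
      rw [h6, map_mul, e, mul_zero]
    apply mul_right_cancel₀ hd
    linear_combination hx

end

section product

variable {s : K}

/-- plus or minus a norm -/
def G (s a g : K) : Prop :=
  ∃ x y : K, g = x ^ 2 - (4 * (s - a) ^ 2 - 1) * y ^ 2 ∨
    g = -(x ^ 2 - (4 * (s - a) ^ 2 - 1) * y ^ 2)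

lemma G_one (s a : K) : G s a 1 := ⟨1, 0, Or.inl (by ring)⟩

lemma G_mul {s a g h : K} (hg : G s a g) (hh : G s a h) : G s a (g * h) := by
  obtain ⟨x, y, hg⟩ := hg
  obtain ⟨z, w, hh⟩ := hh
  refine ⟨x * z + (4 * (s - a) ^ 2 - 1) * y * w, x * w + y * z, ?_⟩
  rcases hg with hg | hg <;> rcases hh with hh | hh <;> rw [hg, hh]
  · left; ring
  · right; ring
  · right; ring
  · left; ring

lemma G_lin (s a m β γ : K) (h1 : 4 * β * γ = 1) (h2 : β ^ 2 + γ ^ 2 = m) :
    G s a ((s - a) - m) ∧ G s a ((s - a) + m) := by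
  constructor
  · refine ⟨2 * γ * (s - a) - β, γ, Or.inr ?_⟩
    linear_combination (-(s - a)) * h1 + h2
  · refine ⟨2 * γ * (s - a) + β, γ, Or.inl ?_⟩
    linear_combination (-(s - a)) * h1 - h2

/-- `E` for products of linear factors -/
lemma E_prod (s : K) (hh : ∀ m : ℕ, 1 ≤ m → ∃ β γ : K, 4 * β * γ = 1 ∧ β ^ 2 + γ ^ 2 = m)
    (n a : ℕ) (ha : a ≤ n) : E s (a : K) (∏ j ∈ Finset.range (n + 1), (s - (j : K))) := by
  have hG : ∀ t : Finset ℕ, a ∉ t → G s (a : K) (∏ j ∈ t, (s - (j : K))) := by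
    intro t
    induction t using Finset.induction_on with
    | empty =>
      intro _
      rw [Finset.prod_empty]
      exact G_one s _
    | insert j t hj ih =>
      intro hat
      rw [Finset.mem_insert, not_or] at hat
      rw [Finset.prod_insert hj]
      refine G_mul ?_ (ih hat.2)
      rcases lt_or_gt_of_ne hat.1 with h | h
      · obtain ⟨β, γ, h1, h2⟩ := hh (j - a) (by omega)
        have h3 := (G_lin s (a : K) _ β γ h1 h2).1
        have h4 : (s - (a : K)) - ((j - a : ℕ) : K) = s - j := by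
          rw [Nat.cast_sub h.le]
          ring
        rwa [h4] at h3
      · obtain ⟨β, γ, h1, h2⟩ := hh (a - j) (by omega)
        have h3 := (G_lin s (a : K) _ β γ h1 h2).2
        have h4 : (s - (a : K)) + ((a - j : ℕ) : K) = s - j := by
          rw [Nat.cast_sub h.le]
          ring
        rwa [h4] at h3
  have h1 : ∏ j ∈ Finset.range (n + 1), (s - (j : K)) =
      (s - (a : K)) * ∏ j ∈ (Finset.range (n + 1)).erase a, (s - (j : K)) :=
    (Finset.mul_prod_erase _ _ (Finset.mem_range.2 (by omega))).symm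
  obtain ⟨x, y, h2⟩ := hG ((Finset.range (n + 1)).erase a) (Finset.notMem_erase _ _)
  refine ⟨x, y, ?_⟩
  rw [h1]
  rcases h2 with h2 | h2
  · left; rw [h2]
  · right; rw [h2]; ring

end product

end Pool.Agent.X321.DR
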