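import Mathlib
import Pool.Agent.X321.DR.Poly

set_option autoImplicit false

/-! The natural numbers in a field of rational functions. -/

namespace Pool.Agent.X321.DR

open Polynomial

/-- `x` is the coordinate of a point of the Fermat cubic -/
def InD {K : Type} [Field K] (x : K) : Prop := ∃ y : K, x ^ 3 + y ^ 3 = 1

/-- the definition of the natural numbers -/
def Nt {K : Type} [Field K] (s c : K) : Prop :=
  InD c ∧ ∃ f : K, f ≠ 0 ∧ E s c f ∧
    ∀ a : K, ¬ (InD a ∧ E s a f) ∨ (a = 0 ∨ (InD (a - 1) ∧ E s (a - 1) f))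

theorem nt_iff {F K : Type} [Field F] [LinearOrder F] [IsStrictOrderedRing F] [Field K]
    [Algebra F K] [LinearOrder K] [IsStrictOrderedRing K] {s : K} (hs : Transcendental F s)
    (hK : ∀ x : K, ∃ p q : F[X], q ≠ 0 ∧ x * aeval s q = aeval s p)
    (hh : ∀ m : ℕ, 1 ≤ m → ∃ β γ : K, 4 * β * γ = 1 ∧ β ^ 2 + γ ^ 2 = m)
    (hc : ∀ n : ℕ, InD (n : K)) (c : K) : Nt s c ↔ ∃ n : ℕ, c = n := by
  constructor
  · rintro ⟨h1, f, hf, h2, h3⟩
    by_contra hcon
    push Not at hcon
    have h4 : ∀ k : ℕ, InD (c - k) ∧ E s (c - k) f := by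
      intro k
      induction k with
      | zero =>
        rw [Nat.cast_zero, sub_zero]
        exact ⟨h1, h2⟩
      | succ k ih =>
        have h5 := ((h3 (c - k)).resolve_left (not_not.2 ih)).resolve_left
          (fun h => hcon k (sub_eq_zero.1 h))
        rw [Nat.cast_succ, ← sub_sub]
        exact h5
    obtain ⟨y, hy⟩ := h1
    obtain ⟨c0, rfl⟩ := const_of_cubic hs hK c y hy
    have h5 := finite_E hs hK f hf
    have h6 : Set.range (fun k : ℕ => c0 - (k : F)) ⊆ {a : F | E s (algebraMap F K a) f} := by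
      rintro _ ⟨k, rfl⟩
      have := (h4 k).2
      rw [Set.mem_ofPred_eq, map_sub, map_natCast]
      exact this
    have h7 : (Set.range (fun k : ℕ => c0 - (k : F))).Infinite := by
      apply Set.infinite_range_of_injective
      intro k l hkl
      have : (k : F) = l := by
        have h8 : c0 - (k : F) = c0 - (l : F) := hkl
        linear_combination -h8
      exact_mod_cast this
    exact h7 (h5.subset h6)
  · rintro ⟨n, rfl⟩
    have hprod : ∏ j ∈ Finset.range (n + 1), (s - (j : K)) =
        aeval s (∏ j ∈ Finset.range (n + 1), (X - C (j : F)) : F[X]) := by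
      rw [map_prod]
      refine Finset.prod_congr rfl fun j _ => ?_
      rw [map_sub, aeval_X, aeval_C, map_natCast]
    have hP : (∏ j ∈ Finset.range (n + 1), (X - C (j : F)) : F[X]) ≠ 0 :=
      Finset.prod_ne_zero_iff.2 fun j _ => X_sub_C_ne_zero _
    refine ⟨hc n, ∏ j ∈ Finset.range (n + 1), (s - (j : K)), ?_, E_prod s hh n n le_rfl, ?_⟩
    · rw [hprod]
      intro e
      exact hP (inj hs (by rw [e, map_zero]))
    · intro a
      by_cases ha : InD a ∧ E s a (∏ j ∈ Finset.range (n + 1), (s - (j : K)))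
      · right
        obtain ⟨⟨y, hy⟩, h2⟩ := ha
        obtain ⟨c0, rfl⟩ := const_of_cubic hs hK a y hy
        have h3 := root_of_E hs hK c0 _ (∏ j ∈ Finset.range (n + 1), (X - C (j : F)) : F[X]) 1
          (by rw [map_one, mul_one, hprod]) h2
        rw [mul_one, eval_prod, Finset.prod_eq_zero_iff] at h3
        obtain ⟨j, hj, h4⟩ := h3
        rw [eval_sub, eval_X, eval_C, sub_eq_zero] at h4
        rw [Finset.mem_range] at hj
        rw [h4, map_natCast]
        rcases Nat.eq_zero_or_pos j with rfl | hj0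
        · left
          exact Nat.cast_zero
        · right
          have h5 : (j : K) - 1 = ((j - 1 : ℕ) : K) := by
            rw [Nat.cast_sub hj0, Nat.cast_one]
          rw [h5]
          exact ⟨hc _, E_prod s hh n (j - 1) (by omega)⟩
      · exact Or.inl ha

end Pool.Agent.X321.DR
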