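import Mathlib
import Pool.Agent.X321.DR.Nat

set_option autoImplicit false

/-! The formula, in the language of ordered rings. -/

namespace Pool.Agent.X321.DR

open FirstOrder FirstOrder.Language FirstOrder.Ring

section closure

variable {L : Language} {K : Type} [L.Structure K] {α β : Type}

variable (L) in
/-- the predicate `P` is definable without parameters -/
def Df (P : (α → K) → Prop) : Prop := ∃ φ : L.Formula α, ∀ v, φ.Realize v ↔ P v

lemma Df.eq (t s : L.Term α) : Df L (fun v : α → K => t.realize v = s.realize v) :=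
  ⟨t.equal s, fun v => by rw [Formula.realize_equal]⟩

lemma Df.not {P : (α → K) → Prop} (h : Df L P) : Df L (fun v => ¬ P v) := by
  obtain ⟨φ, hφ⟩ := h
  exact ⟨φ.not, fun v => by rw [Formula.realize_not, hφ]⟩

lemma Df.and {P Q : (α → K) → Prop} (h : Df L P) (h' : Df L Q) : Df L (fun v => P v ∧ Q v) := by
  obtain ⟨φ, hφ⟩ := h
  obtain ⟨ψ, hψ⟩ := h'
  exact ⟨φ ⊓ ψ, fun v => by rw [Formula.realize_inf, hφ, hψ]⟩

lemma Df.or {P Q : (α → K) → Prop} (h : Df L P) (h' : Df L Q) : Df L (fun v => P v ∨ Q v) := by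
  obtain ⟨φ, hφ⟩ := h
  obtain ⟨ψ, hψ⟩ := h'
  exact ⟨φ ⊔ ψ, fun v => by rw [Formula.realize_sup, hφ, hψ]⟩

lemma Df.ex {P : (α ⊕ Fin 1 → K) → Prop} (h : Df L P) :
    Df L (fun v => ∃ y : K, P (Sum.elim v (fun _ => y))) := by
  obtain ⟨φ, hφ⟩ := h
  refine ⟨φ.iExs (Fin 1), fun v => ?_⟩
  rw [Formula.realize_iExs]
  constructor
  · rintro ⟨i, hi⟩
    refine ⟨i 0, ?_⟩
    rw [hφ] at hi
    have : i = fun _ => i 0 := by
      funext j
      rw [Subsingleton.elim j 0]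
    rwa [this] at hi
  · rintro ⟨y, hy⟩
    exact ⟨fun _ => y, (hφ _).2 hy⟩

lemma Df.al {P : (α ⊕ Fin 1 → K) → Prop} (h : Df L P) :
    Df L (fun v => ∀ y : K, P (Sum.elim v (fun _ => y))) := by
  have h1 := (h.not.ex).not
  obtain ⟨φ, hφ⟩ := h1
  refine ⟨φ, fun v => ?_⟩
  rw [hφ]
  push Not
  rfl

lemma Df.sub {P : (α → K) → Prop} (h : Df L P) (t : α → L.Term β) :
    Df L (fun v : β → K => P (fun a => (t a).realize v)) := by
  obtain ⟨φ, hφ⟩ := h
  refine ⟨φ.subst t, fun v => ?_⟩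
  refine Iff.trans ?_ (hφ _)
  exact BoundedFormula.realize_subst

lemma Df.congr {P Q : (α → K) → Prop} (h : Df L P) (hPQ : ∀ v, P v ↔ Q v) : Df L Q := by
  obtain ⟨φ, hφ⟩ := h
  exact ⟨φ, fun v => (hφ v).trans (hPQ v)⟩

end closure

section

variable {K : Type} [Field K] [CompatibleRing K] {α : Type}

lemma df_InD : Df Language.ring (fun v : Fin 1 → K => InD (v 0)) := by
  unfold InD
  let x : Language.ring.Term (Fin 1 ⊕ Fin 1) := Term.var (Sum.inl 0)
  let y : Language.ring.Term (Fin 1 ⊕ Fin 1) := Term.var (Sum.inr 0)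
  refine (Df.eq (K := K) (x * x * x + y * y * y) 1).ex.congr fun v => ?_
  refine exists_congr fun z => ?_
  simp only [realize_add, realize_mul, realize_one]
  change v 0 * v 0 * v 0 + z * z * z = 1 ↔ v 0 ^ 3 + z ^ 3 = 1
  rw [pow_three', pow_three']

lemma df_E : Df Language.ring (fun v : Fin 3 → K => E (v 0) (v 1) (v 2)) := by
  unfold E
  let s : Language.ring.Term ((Fin 3 ⊕ Fin 1) ⊕ Fin 1) := Term.var (Sum.inl (Sum.inl 0))
  let a : Language.ring.Term ((Fin 3 ⊕ Fin 1) ⊕ Fin 1) := Term.var (Sum.inl (Sum.inl 1))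
  let f : Language.ring.Term ((Fin 3 ⊕ Fin 1) ⊕ Fin 1) := Term.var (Sum.inl (Sum.inl 2))
  let x : Language.ring.Term ((Fin 3 ⊕ Fin 1) ⊕ Fin 1) := Term.var (Sum.inl (Sum.inr 0))
  let y : Language.ring.Term ((Fin 3 ⊕ Fin 1) ⊕ Fin 1) := Term.var (Sum.inr 0)
  let t : Language.ring.Term ((Fin 3 ⊕ Fin 1) ⊕ Fin 1) :=
    (s + -a) * (x * x + -(((1 + 1 + 1 + 1) * ((s + -a) * (s + -a)) + -1) * (y * y)))
  refine ((Df.eq (K := K) f t).or (Df.eq (K := K) f (-t))).ex.ex.congr fun v => ?_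
  refine exists_congr fun z => exists_congr fun w => ?_
  simp only [t, realize_add, realize_mul, realize_one, realize_neg]
  change (v 2 = (v 0 + -v 1) * (z * z + -(((1 + 1 + 1 + 1) * ((v 0 + -v 1) * (v 0 + -v 1)) + -1) *
    (w * w))) ∨ v 2 = -((v 0 + -v 1) * (z * z + -(((1 + 1 + 1 + 1) * ((v 0 + -v 1) *
    (v 0 + -v 1)) + -1) * (w * w))))) ↔ _
  refine or_congr ?_ ?_
  · rw [show (v 0 + -v 1) * (z * z + -(((1 + 1 + 1 + 1) * ((v 0 + -v 1) * (v 0 + -v 1)) + -1) *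
      (w * w))) = (v 0 - v 1) * (z ^ 2 - (4 * (v 0 - v 1) ^ 2 - 1) * w ^ 2) by ring]
  · rw [show (v 0 + -v 1) * (z * z + -(((1 + 1 + 1 + 1) * ((v 0 + -v 1) * (v 0 + -v 1)) + -1) *
      (w * w))) = (v 0 - v 1) * (z ^ 2 - (4 * (v 0 - v 1) ^ 2 - 1) * w ^ 2) by ring]

/-- variables: `s`, `c` -/
lemma df_Nt : Df Language.ring (fun v : Fin 2 → K => Nt (v 0) (v 1)) := by
  unfold Nt
  have h1 : Df Language.ring (fun v : Fin 2 → K => InD (v 1)) :=
    (df_InD (K := K)).sub (fun _ => Term.var 1)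
  refine h1.and (Df.congr (Df.ex (P := fun v : Fin 2 ⊕ Fin 1 → K => v (Sum.inr 0) ≠ 0 ∧
    E (v (Sum.inl 0)) (v (Sum.inl 1)) (v (Sum.inr 0)) ∧
    ∀ a : K, ¬ (InD a ∧ E (v (Sum.inl 0)) a (v (Sum.inr 0))) ∨
      (a = 0 ∨ (InD (a - 1) ∧ E (v (Sum.inl 0)) (a - 1) (v (Sum.inr 0))))) ?_) fun v => Iff.rfl)
  refine Df.and ?_ (Df.and ?_ ?_)
  · exact (Df.eq (K := K) (Term.var (Sum.inr 0) : Language.ring.Term (Fin 2 ⊕ Fin 1)) 0).not.congr
      fun v => by rw [realize_zero]; rfl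
  · exact (df_E (K := K)).sub (![Term.var (Sum.inl 0), Term.var (Sum.inl 1), Term.var (Sum.inr 0)] :
      Fin 3 → Language.ring.Term (Fin 2 ⊕ Fin 1))
  · let s : Language.ring.Term ((Fin 2 ⊕ Fin 1) ⊕ Fin 1) := Term.var (Sum.inl (Sum.inl 0))
    let f : Language.ring.Term ((Fin 2 ⊕ Fin 1) ⊕ Fin 1) := Term.var (Sum.inl (Sum.inr 0))
    let a : Language.ring.Term ((Fin 2 ⊕ Fin 1) ⊕ Fin 1) := Term.var (Sum.inr 0)
    refine Df.congr (Df.al (P := fun v : (Fin 2 ⊕ Fin 1) ⊕ Fin 1 → K =>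
      ¬ (InD (v (Sum.inr 0)) ∧ E (v (Sum.inl (Sum.inl 0))) (v (Sum.inr 0))
        (v (Sum.inl (Sum.inr 0)))) ∨ (v (Sum.inr 0) = 0 ∨ (InD (v (Sum.inr 0) - 1) ∧
        E (v (Sum.inl (Sum.inl 0))) (v (Sum.inr 0) - 1) (v (Sum.inl (Sum.inr 0)))))) ?_)
      fun v => Iff.rfl
    refine Df.or (Df.not (Df.and ?_ ?_)) (Df.or ?_ (Df.and ?_ ?_))
    · exact (df_InD (K := K)).sub (fun _ => a)
    · exact (df_E (K := K)).sub (![s, a, f])
    · exact (Df.eq (K := K) a 0).congr fun v => by rw [realize_zero]; rfl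
    · refine ((df_InD (K := K)).sub (fun _ => a + -1)).congr fun v => ?_
      simp only [realize_add, realize_neg, realize_one]
      rw [← sub_eq_add_neg]
      rfl
    · refine ((df_E (K := K)).sub (![s, a + -1, f])).congr fun v => ?_
      change E _ ((a + -1).realize v) _ ↔ _
      simp only [realize_add, realize_neg, realize_one]
      rw [← sub_eq_add_neg]
      rfl

variable [LinearOrder K] [Language.order.Structure K] [Language.order.OrderedStructure K]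

lemma sum_ordered : (Language.ring.sum Language.order).OrderedStructure K :=
  ⟨fun x => relMap_leSymb (L := Language.order) x⟩

omit [LinearOrder K] [Language.order.OrderedStructure K] in
lemma df_ring {P : (α → K) → Prop} (h : Df Language.ring P) :
    Df (Language.ring.sum Language.order) P := by
  obtain ⟨φ, hφ⟩ := h
  refine ⟨(LHom.sumInl : Language.ring →ᴸ Language.ring.sum Language.order).onFormula φ,
    fun v => ?_⟩
  rw [LHom.realize_onFormula]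
  exact hφ v

lemma df_le (i j : α) : Df (Language.ring.sum Language.order) (fun v : α → K => v i ≤ v j) := by
  have := sum_ordered (K := K)
  refine ⟨Term.le (n := 0) (Term.var (Sum.inl i)) (Term.var (Sum.inl j)), fun v => ?_⟩
  exact Term.realize_le

/-- variables: `x` and the parameter `s` -/
lemma df_O : Df (Language.ring.sum Language.order) (fun v : Fin 1 ⊕ Fin 1 → K =>
    ∃ c : K, Nt (v (Sum.inr 0)) c ∧ v (Sum.inl 0) ≤ c ∧ ∃ y : K, v (Sum.inl 0) + y = 0 ∧ y ≤ c) := by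
  refine Df.congr (Df.ex (P := fun v : (Fin 1 ⊕ Fin 1) ⊕ Fin 1 → K =>
    Nt (v (Sum.inl (Sum.inr 0))) (v (Sum.inr 0)) ∧ v (Sum.inl (Sum.inl 0)) ≤ v (Sum.inr 0) ∧
    ∃ y : K, v (Sum.inl (Sum.inl 0)) + y = 0 ∧ y ≤ v (Sum.inr 0)) ?_) fun v => Iff.rfl
  refine Df.and ?_ (Df.and (df_le _ _) ?_)
  · exact df_ring ((df_Nt (K := K)).sub (![Term.var (Sum.inl (Sum.inr 0)), Term.var (Sum.inr 0)]))
  · refine Df.congr (Df.ex (P := fun v : ((Fin 1 ⊕ Fin 1) ⊕ Fin 1) ⊕ Fin 1 → K =>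
      v (Sum.inl (Sum.inl (Sum.inl 0))) + v (Sum.inr 0) = 0 ∧
      v (Sum.inr 0) ≤ v (Sum.inl (Sum.inr 0))) ?_) fun v => Iff.rfl
    refine Df.and (df_ring ?_) (df_le _ _)
    refine (Df.eq (K := K) ((Term.var (Sum.inl (Sum.inl (Sum.inl 0))) + Term.var (Sum.inr 0)) :
      Language.ring.Term (((Fin 1 ⊕ Fin 1) ⊕ Fin 1) ⊕ Fin 1)) 0).congr fun v => ?_
    rw [realize_add, realize_zero]
    rfl

/-- the formula -/
theorem exists_formula : ∃ ψ : (Language.ring.sum Language.order).Formula (Fin 1 ⊕ Fin 1),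
    ∀ s x : K, (∃ c : K, Nt s c ∧ x ≤ c ∧ -x ≤ c) ↔
      ψ.Realize (Sum.elim (fun _ => x) (fun _ => s)) := by
  obtain ⟨ψ, hψ⟩ := df_O (K := K)
  refine ⟨ψ, fun s x => ?_⟩
  rw [hψ]
  refine exists_congr fun c => and_congr Iff.rfl (and_congr Iff.rfl ?_)
  constructor
  · intro h
    exact ⟨-x, add_neg_cancel x, h⟩
  · rintro ⟨y, h1, h2⟩
    have h3 : y = -x := eq_neg_of_add_eq_zero_right h1
    rw [h3] at h2
    exact h2

end

end Pool.Agent.X321.DR
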