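import Mathlib

set_option autoImplicit false

/-! The hyperreals are real closed; a dense subfield. -/

namespace Pool.Agent.X321.DR

open Filter Polynomial Hyperreal

/-- real polynomials of odd degree have a root -/
lemma real_root (p : ℝ[X]) (hp : Odd p.natDegree) : ∃ x : ℝ, p.eval x = 0 := by
  have key : ∀ p : ℝ[X], Odd p.natDegree → 0 ≤ p.leadingCoeff → ∃ x : ℝ, p.eval x = 0 := by
    intro p hp hl
    have hdeg : 0 < p.degree := natDegree_pos_iff_degree_pos.1 hp.pos
    have h1 := p.tendsto_atTop_of_leadingCoeff_nonneg hdeg hl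
    have hd2 : (p.comp (-X)).natDegree = p.natDegree := by
      rw [natDegree_comp, natDegree_neg, natDegree_X, mul_one]
    have h2 : Tendsto (fun x => eval x (p.comp (-X))) atTop atBot := by
      refine (p.comp (-X)).tendsto_atBot_of_leadingCoeff_nonpos ?_ ?_
      · exact natDegree_pos_iff_degree_pos.1 (hd2 ▸ hp.pos)
      · rw [leadingCoeff_comp (by rw [natDegree_neg, natDegree_X]; exact one_ne_zero),
          leadingCoeff_neg, leadingCoeff_X, hp.neg_one_pow]
        linarith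
    have h3 : Tendsto (fun x => eval x p) atBot atBot := by
      have h4 := h2.comp tendsto_neg_atBot_atTop
      refine h4.congr fun x => ?_
      simp [eval_comp]
    exact p.continuous.surjective h1 h3 0
  rcases le_total 0 p.leadingCoeff with h | h
  · exact key p hp h
  · obtain ⟨x, hx⟩ := key (-p) (by rwa [natDegree_neg]) (by rw [leadingCoeff_neg]; linarith)
    exact ⟨x, by rwa [eval_neg, neg_eq_zero] at hx⟩

lemma ofSeq_eq {f g : ℕ → ℝ} : ofSeq f = ofSeq g ↔ ∀ᶠ n in hyperfilter ℕ, f n = g n :=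
  Germ.coe_eq

lemma ofSeq_sum (n : ℕ) (f : ℕ → ℕ → ℝ) (r : ℕ → ℝ) :
    ∑ i ∈ Finset.range n, ofSeq (f i) * ofSeq r ^ i =
      ofSeq (fun k => ∑ i ∈ Finset.range n, f i k * r k ^ i) := by
  induction n with
  | zero => rfl
  | succ n ih =>
    rw [Finset.sum_range_succ, ih]
    have : (fun k => ∑ i ∈ Finset.range (n + 1), f i k * r k ^ i) =
        (fun k => ∑ i ∈ Finset.range n, f i k * r k ^ i) + f n * r ^ n := by
      funext k
      rw [Finset.sum_range_succ]
      rfl
    rw [this]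
    rfl

/-- the hyperreals have square roots -/
lemma hyper_sqrt (x : ℝ*) (hx : 0 ≤ x) : IsSquare x := by
  obtain ⟨f, rfl⟩ := ofSeq_surjective x
  refine ⟨ofSeq (fun n => √(f n)), ?_⟩
  have h1 : ∀ᶠ n in hyperfilter ℕ, 0 ≤ f n := ofSeq_le_ofSeq.1 hx
  change ofSeq f = ofSeq (fun n => √(f n) * √(f n))
  rw [ofSeq_eq]
  filter_upwards [h1] with n hn
  rw [Real.mul_self_sqrt hn]

/-- polynomials of odd degree over the hyperreals have a root -/
lemma hyper_root {p : ℝ*[X]} (hp : Odd p.natDegree) : ∃ x, p.IsRoot x := by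
  choose f hf using fun i => ofSeq_surjective (p.coeff i)
  set n := p.natDegree with hn
  let q : ℕ → ℝ[X] := fun k => ∑ i ∈ Finset.range (n + 1), C (f i k) * X ^ i
  have hq : ∀ k r, (q k).eval r = ∑ i ∈ Finset.range (n + 1), f i k * r ^ i := by
    intro k r
    simp only [q, eval_finsetSum, eval_mul, eval_C, eval_pow, eval_X]
  have hlead : ∀ᶠ k in hyperfilter ℕ, f n k ≠ 0 := by
    have h1 : p.coeff n ≠ 0 := by
      intro e
      have h2 : p = 0 := leadingCoeff_eq_zero.1 e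
      rw [h2, natDegree_zero] at hn
      rw [hn] at hp
      exact absurd hp (by decide)
    rw [← hf n] at h1
    have h2 : ¬ ∀ᶠ k in hyperfilter ℕ, f n k = 0 := fun h => h1 (ofSeq_eq.2 h)
    exact Ultrafilter.eventually_not.2 h2
  have hcoeff : ∀ k j, (q k).coeff j = if j < n + 1 then f j k else 0 := by
    intro k j
    simp only [q, finsetSum_coeff, coeff_C_mul, coeff_X_pow, mul_ite, mul_one, mul_zero]
    rw [Finset.sum_ite_eq]
    simp only [Finset.mem_range]
  have hex : ∀ k, ∃ r, f n k ≠ 0 → (q k).eval r = 0 := by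
    intro k
    by_cases hk : f n k = 0
    · exact ⟨0, fun h => absurd hk h⟩
    · have hdeg : (q k).natDegree = n := by
        apply natDegree_eq_of_le_of_coeff_ne_zero
        · rw [natDegree_le_iff_coeff_eq_zero]
          intro j hj
          rw [hcoeff, if_neg (by omega)]
        · rw [hcoeff, if_pos (Nat.lt_succ_self n)]
          exact hk
      obtain ⟨r, hr⟩ := real_root (q k) (by rw [hdeg]; exact hp)
      exact ⟨r, fun _ => hr⟩
  choose r hr using hex
  refine ⟨ofSeq r, ?_⟩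
  rw [IsRoot, eval_eq_sum_range, ← hn]
  have h1 : ∀ i, p.coeff i = ofSeq (f i) := fun i => (hf i).symm
  simp only [h1]
  rw [ofSeq_sum]
  change _ = ofSeq 0
  rw [ofSeq_eq]
  filter_upwards [hlead] with k hk
  rw [← hq]
  exact hr k hk

/-- the field of germs of sequences of real algebraic numbers -/
def FF : Subfield ℝ* where
  carrier := {x | ∃ f : ℕ → ℝ, (∀ n, IsAlgebraic ℚ (f n)) ∧ ofSeq f = x}
  mul_mem' := by
    rintro _ _ ⟨f, hf, rfl⟩ ⟨g, hg, rfl⟩
    exact ⟨fun n => f n * g n, fun n => (hf n).mul (hg n), rfl⟩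
  one_mem' := ⟨fun _ => 1, fun _ => isAlgebraic_one, rfl⟩
  add_mem' := by
    rintro _ _ ⟨f, hf, rfl⟩ ⟨g, hg, rfl⟩
    exact ⟨fun n => f n + g n, fun n => (hf n).add (hg n), rfl⟩
  zero_mem' := ⟨fun _ => 0, fun _ => isAlgebraic_zero, rfl⟩
  neg_mem' := by
    rintro _ ⟨f, hf, rfl⟩
    exact ⟨fun n => -f n, fun n => (hf n).neg, rfl⟩
  inv_mem' := by
    rintro _ ⟨f, hf, rfl⟩
    exact ⟨fun n => (f n)⁻¹, fun n => (hf n).inv, rfl⟩

lemma mem_FF {x : ℝ*} : x ∈ FF ↔ ∃ f : ℕ → ℝ, (∀ n, IsAlgebraic ℚ (f n)) ∧ ofSeq f = x := Iff.rfl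

lemma coe_mem_FF {x : ℝ} (hx : IsAlgebraic ℚ x) : (x : ℝ*) ∈ FF := ⟨fun _ => x, fun _ => hx, rfl⟩

lemma omega_mem_FF : ω ∈ FF := ⟨fun n => n, fun n => isAlgebraic_natCast n, rfl⟩

/-- `FF` is dense -/
lemma FF_dense (x y : ℝ*) (h : x < y) : ∃ z ∈ FF, x < z ∧ z < y := by
  obtain ⟨f, rfl⟩ := ofSeq_surjective x
  obtain ⟨g, rfl⟩ := ofSeq_surjective y
  have h1 : ∀ k, ∃ q : ℚ, f k < g k → f k < q ∧ (q : ℝ) < g k := by
    intro k
    by_cases hk : f k < g k
    · obtain ⟨q, hq⟩ := exists_rat_btwn hk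
      exact ⟨q, fun _ => hq⟩
    · exact ⟨0, fun h => absurd h hk⟩
  choose q hq using h1
  refine ⟨ofSeq (fun k => (q k : ℝ)), ⟨fun k => (q k : ℝ), fun k => isAlgebraic_ratCast ℚ (q k), rfl⟩, ?_, ?_⟩
  · rw [ofSeq_lt_ofSeq] at h ⊢
    filter_upwards [h] with k hk using (hq k hk).1
  · rw [ofSeq_lt_ofSeq] at h ⊢
    filter_upwards [h] with k hk using (hq k hk).2

/-- transcendental numbers are transcendental over `FF` -/
lemma transcendental_FF (x : ℝ) (hx : Transcendental ℚ x) : Transcendental FF (x : ℝ*) := by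
  rintro ⟨p, hp, h⟩
  choose f hf hf' using fun i => mem_FF.1 (p.coeff i).2
  set n := p.natDegree with hn
  have h1 : ∀ᶠ k in hyperfilter ℕ, ∑ i ∈ Finset.range (n + 1), f i k * x ^ i = 0 := by
    rw [aeval_eq_sum_range, ← hn] at h
    have h2 : ∀ i, p.coeff i • (x : ℝ*) ^ i = ofSeq (f i) * (ofSeq (fun _ => x)) ^ i := by
      intro i
      rw [hf' i]
      rfl
    simp only [h2] at h
    rw [ofSeq_sum] at h
    exact ofSeq_eq.1 h
  have h2 : ∀ᶠ k in hyperfilter ℕ, f n k ≠ 0 := by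
    have h3 : p.coeff n ≠ 0 := fun e => hp (leadingCoeff_eq_zero.1 e)
    have h4 : ¬ ∀ᶠ k in hyperfilter ℕ, f n k = 0 := by
      intro h5
      apply h3
      apply Subtype.ext
      rw [← hf' n]
      exact ofSeq_eq.2 h5
    exact Ultrafilter.eventually_not.2 h4
  obtain ⟨k, hk1, hk2⟩ := (h1.and h2).exists
  -- over the real algebraic numbers
  let A := algebraicClosure ℚ ℝ
  have hA : ∀ i, f i k ∈ A := fun i => mem_algebraicClosure_iff.2 (hf i k)
  let q : A[X] := ∑ i ∈ Finset.range (n + 1), C ⟨f i k, hA i⟩ * X ^ i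
  have hq : q.coeff n = ⟨f n k, hA n⟩ := by
    simp only [q, finsetSum_coeff, coeff_C_mul, coeff_X_pow, mul_ite, mul_one, mul_zero]
    rw [Finset.sum_ite_eq, if_pos (Finset.mem_range.2 (Nat.lt_succ_self n))]
  have halg : IsAlgebraic A x := by
    refine ⟨q, ?_, ?_⟩
    · intro e
      rw [e, coeff_zero] at hq
      exact hk2 (congrArg Subtype.val hq).symm
    · simp only [q, map_sum, map_mul, aeval_C, map_pow, aeval_X]
      exact hk1
  have h3 : x ∈ algebraicClosure A ℝ := mem_algebraicClosure_iff.2 halg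
  rw [algebraicClosure.algebraicClosure_eq_bot, IntermediateField.mem_bot] at h3
  obtain ⟨y, rfl⟩ := h3
  exact hx (mem_algebraicClosure_iff.1 y.2)

end Pool.Agent.X321.DR
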